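import Pool.Agent.H958.LR.Stm

/-!
# [DYN] Domination of the windows of the dynamical model by an independent family

Subtask of helper958 (MP_7adf6c_pr), done by helper106.
-/

namespace Pool.Agent.H106.LR

open MeasureTheory ProbabilityTheory Set Filter
open scoped ENNReal NNReal Nat Topology
open Pool.Agent.H958.LR

section abstract

variable {Ω : Type*} {mΩ : MeasurableSpace Ω} {P : Measure Ω}

theorem indep_aux {ι : Type*} {m : ι → MeasurableSpace Ω} (hle : ∀ k, m k ≤ mΩ) (h : iIndep m P)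
    {i : ι} {S : Set ι} (hi : i ∉ S) {A B : Set Ω} (hA : MeasurableSet[m i] A)
    (hB : MeasurableSet[⨆ j ∈ S, m j] B) : P (A ∩ B) = P A * P B := by
  have hd : Disjoint ({i} : Set ι) S := Set.disjoint_singleton_left.mpr hi
  refine (Indep_iff _ _ _).mp (indep_iSup_of_disjoint hle h hd) A B ?_ hB
  have : m i ≤ ⨆ j ∈ ({i} : Set ι), m j := le_iSup₂_of_le i rfl le_rfl
  exact this A hA

/-- blocks of independent `σ`-algebras are independent -/
theorem iIndep_blocks [IsProbabilityMeasure P] {β σ : Type*} {m : β × σ → MeasurableSpace Ω}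
    (hle : ∀ k, m k ≤ mΩ) (h : iIndep m P) : iIndep (fun b => ⨆ s, m (b, s)) P := by
  classical
  rw [iIndep_iff]
  intro S
  induction S using Finset.induction_on with
  | empty => intro f _; simp
  | insert b S hb ih =>
    intro f hf
    rw [Finset.prod_insert hb, ← ih fun i hi => hf i (Finset.mem_insert_of_mem hi),
      Finset.set_biInter_insert]
    have hd : Disjoint ({k : β × σ | k.1 = b}) {k : β × σ | k.1 ∈ S} := by
      rw [Set.disjoint_left]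
      rintro ⟨k1, k2⟩ h1 h2
      simp only [Set.mem_ofPred_eq] at h1 h2
      exact hb (h1 ▸ h2)
    refine (Indep_iff _ _ _).mp (indep_iSup_of_disjoint hle h hd) _ _ ?_ ?_
    · have : (⨆ s, m (b, s)) ≤ ⨆ j ∈ {k : β × σ | k.1 = b}, m j :=
        iSup_le fun s => le_iSup₂_of_le (b, s) rfl le_rfl
      exact this _ (hf b (Finset.mem_insert_self _ _))
    · refine Finset.measurableSet_biInter _ fun i hi => ?_
      have : (⨆ s, m (i, s)) ≤ ⨆ j ∈ {k : β × σ | k.1 ∈ S}, m j :=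
        iSup_le fun s => le_iSup₂_of_le (i, s) hi le_rfl
      exact this _ (hf i (Finset.mem_insert_of_mem hi))

/-- the events `closed_k` -/
def CC (Eo Ec : ℕ → Set Ω) : ℕ → Set Ω
  | 0 => ∅
  | k + 1 => Eo k ∩ ((Ec k)ᶜ ∪ CC Eo Ec k)

variable {m : Fin 3 × ℕ → MeasurableSpace Ω}

theorem CC_meas {Eo Ec : ℕ → Set Ω} (ho : ∀ k, MeasurableSet[m (1, k)] (Eo k))
    (hc : ∀ k, MeasurableSet[m (2, k)] (Ec k)) (k : ℕ) :
    MeasurableSet[⨆ j ∈ {j : Fin 3 × ℕ | j.2 < k}, m j] (CC Eo Ec k) := by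
  induction k with
  | zero => exact @MeasurableSet.empty _ (_)
  | succ k ih =>
    have h1 : m (1, k) ≤ ⨆ j ∈ {j : Fin 3 × ℕ | j.2 < k + 1}, m j :=
      le_iSup₂_of_le (1, k) (Nat.lt_succ_self k) le_rfl
    have h2 : m (2, k) ≤ ⨆ j ∈ {j : Fin 3 × ℕ | j.2 < k + 1}, m j :=
      le_iSup₂_of_le (2, k) (Nat.lt_succ_self k) le_rfl
    have h3 : (⨆ j ∈ {j : Fin 3 × ℕ | j.2 < k}, m j) ≤ ⨆ j ∈ {j : Fin 3 × ℕ | j.2 < k + 1}, m j :=
      iSup₂_le fun j hj => le_iSup₂_of_le j (Nat.lt_succ_of_lt hj) le_rfl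
    exact (h1 _ (ho k)).inter ((h2 _ (hc k)).compl.union (h3 _ ih))

theorem exp_bd (u : ℝ) : Real.exp (-u) * (1 + u) ≤ 1 := by
  have h1 : 1 + u ≤ Real.exp u := by linarith [Real.add_one_le_exp u]
  calc Real.exp (-u) * (1 + u) ≤ Real.exp (-u) * Real.exp u :=
        mul_le_mul_of_nonneg_left h1 (Real.exp_pos _).le
    _ = 1 := by rw [← Real.exp_add]; simp

theorem one_sub_exp_le (u : ℝ) : 1 - Real.exp (-u) ≤ u := by
  linarith [Real.add_one_le_exp (-u)]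

variable [IsProbabilityMeasure P]

theorem CC_bound (hle : ∀ i, m i ≤ mΩ) (hm : iIndep m P) {Eo Ec : ℕ → Set Ω}
    (ho : ∀ k, MeasurableSet[m (1, k)] (Eo k)) (hc : ∀ k, MeasurableSet[m (2, k)] (Ec k))
    {M : ℕ} {u π : ℝ} (hu : 0 ≤ u) (hπ0 : 0 ≤ π)
    (hEo : ∀ k < M, P.real (Eo k) = Real.exp (-(π * u)))
    (hEc : ∀ k < M, P.real (Ec k) = Real.exp (-((1 - π) * u))) :
    ∀ k ≤ M, P.real (CC Eo Ec k)ᶜ ≤ Real.exp (-(u * k)) + π * (1 + u) := by
  intro k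
  induction k with
  | zero =>
    intro _
    simp only [CC, compl_empty, probReal_univ, Nat.cast_zero, mul_zero, neg_zero, Real.exp_zero]
    nlinarith
  | succ k ih =>
    intro hk
    have ihk := ih (by omega)
    have hCm : MeasurableSet[⨆ j ∈ {j : Fin 3 × ℕ | j.2 < k}, m j] (CC Eo Ec k)ᶜ :=
      (CC_meas ho hc k).compl
    have e2 : P.real (Ec k ∩ (CC Eo Ec k)ᶜ) = P.real (Ec k) * P.real (CC Eo Ec k)ᶜ := by
      have := indep_aux hle hm (i := (2, k)) (S := {j : Fin 3 × ℕ | j.2 < k})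
        (by simp) (hc k) hCm
      simp only [Measure.real, this, ENNReal.toReal_mul]
    have hin : MeasurableSet[⨆ j ∈ {j : Fin 3 × ℕ | j.2 < k ∨ j = (2, k)}, m j]
        (Ec k ∩ (CC Eo Ec k)ᶜ) := by
      have h1 : (⨆ j ∈ {j : Fin 3 × ℕ | j.2 < k}, m j) ≤
          ⨆ j ∈ {j : Fin 3 × ℕ | j.2 < k ∨ j = (2, k)}, m j :=
        iSup₂_le fun j hj => le_iSup₂_of_le j (Or.inl hj) le_rfl
      have h2 : m (2, k) ≤ ⨆ j ∈ {j : Fin 3 × ℕ | j.2 < k ∨ j = (2, k)}, m j :=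
        le_iSup₂_of_le (2, k) (Or.inr rfl) le_rfl
      exact (h2 _ (hc k)).inter (h1 _ hCm)
    have e1 : P.real (Eo k ∩ (Ec k ∩ (CC Eo Ec k)ᶜ)) =
        P.real (Eo k) * P.real (Ec k ∩ (CC Eo Ec k)ᶜ) := by
      have := indep_aux hle hm (i := (1, k)) (S := {j : Fin 3 × ℕ | j.2 < k ∨ j = (2, k)})
        (by simp) (ho k) hin
      simp only [Measure.real, this, ENNReal.toReal_mul]
    have hoM : MeasurableSet (Eo k) := hle _ _ (ho k)
    have hinM : MeasurableSet (Ec k ∩ (CC Eo Ec k)ᶜ) := by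
      have : (⨆ j ∈ {j : Fin 3 × ℕ | j.2 < k ∨ j = (2, k)}, m j) ≤ mΩ :=
        iSup₂_le fun j _ => hle j
      exact this _ hin
    have hset : (CC Eo Ec (k + 1))ᶜ = (Eo k)ᶜ ∪ (Eo k ∩ (Ec k ∩ (CC Eo Ec k)ᶜ)) := by
      ext ω
      simp only [CC, mem_compl_iff, mem_inter_iff, mem_union]
      tauto
    rw [hset, measureReal_union (by
      rw [Set.disjoint_left]; intro ω h1 h2; exact h1 h2.1) (hoM.inter hinM), e1, e2,
      probReal_compl_eq_one_sub hoM, hEo k (by omega), hEc k (by omega)]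
    have hα : 1 - Real.exp (-(π * u)) ≤ π * u := one_sub_exp_le _
    have hαβ : Real.exp (-(π * u)) * (Real.exp (-((1 - π) * u)) * P.real (CC Eo Ec k)ᶜ) =
        Real.exp (-u) * P.real (CC Eo Ec k)ᶜ := by
      rw [← mul_assoc, ← Real.exp_add]; congr 2; ring
    rw [hαβ]
    have h3 : Real.exp (-u) * P.real (CC Eo Ec k)ᶜ ≤
        Real.exp (-u) * (Real.exp (-(u * k)) + π * (1 + u)) :=
      mul_le_mul_of_nonneg_left ihk (Real.exp_pos _).le
    have h4 : Real.exp (-u) * Real.exp (-(u * k)) = Real.exp (-(u * ((k + 1 : ℕ) : ℝ))) := by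
      rw [← Real.exp_add]; congr 1; push_cast; ring
    have h5 : Real.exp (-u) * (π * (1 + u)) ≤ π := by
      have := mul_le_mul_of_nonneg_left (exp_bd u) hπ0
      nlinarith
    nlinarith

theorem dyn_bound (hle : ∀ i, m i ≤ mΩ) (hm : iIndep m P) {Ea Eo Ec : ℕ → Set Ω}
    (ha : ∀ k, MeasurableSet[m (0, k)] (Ea k))
    (ho : ∀ k, MeasurableSet[m (1, k)] (Eo k)) (hc : ∀ k, MeasurableSet[m (2, k)] (Ec k))
    {M : ℕ} {r u π : ℝ} (hu : 0 < u) (hr : 0 ≤ r) (hπ0 : 0 ≤ π)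
    (hEa : ∀ k < M, P.real (Ea k) ≤ r)
    (hEo : ∀ k < M, P.real (Eo k) = Real.exp (-(π * u)))
    (hEc : ∀ k < M, P.real (Ec k) = Real.exp (-((1 - π) * u))) :
    P.real (⋃ k ∈ Finset.range M, Ea k ∩ (Eo k ∩ CC Eo Ec k)ᶜ) ≤
      r * (M * (π * (1 + 2 * u)) + (1 + u) / u) := by
  have hCb := CC_bound hle hm ho hc hu.le hπ0 hEo hEc
  have h1 : ∀ k ∈ Finset.range M, P.real (Ea k ∩ (Eo k ∩ CC Eo Ec k)ᶜ) ≤
      r * (π * (1 + 2 * u) + Real.exp (-u) ^ k) := by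
    intro k hk
    have hkM : k < M := Finset.mem_range.mp hk
    have hCm : MeasurableSet[⨆ j ∈ {j : Fin 3 × ℕ | j.2 < k}, m j] (CC Eo Ec k)ᶜ :=
      (CC_meas ho hc k).compl
    have hoM : MeasurableSet (Eo k) := hle _ _ (ho k)
    have hCM : MeasurableSet (CC Eo Ec k)ᶜ := by
      have : (⨆ j ∈ {j : Fin 3 × ℕ | j.2 < k}, m j) ≤ mΩ := iSup₂_le fun j _ => hle j
      exact this _ hCm
    have e1 : P.real (Ea k ∩ (Eo k ∩ CC Eo Ec k)ᶜ) =
        P.real (Ea k) * P.real (Eo k ∩ CC Eo Ec k)ᶜ := by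
      have hin : MeasurableSet[⨆ j ∈ {j : Fin 3 × ℕ | j.2 < k ∨ j = (1, k)}, m j]
          (Eo k ∩ CC Eo Ec k)ᶜ := by
        have h1 : (⨆ j ∈ {j : Fin 3 × ℕ | j.2 < k}, m j) ≤
            ⨆ j ∈ {j : Fin 3 × ℕ | j.2 < k ∨ j = (1, k)}, m j :=
          iSup₂_le fun j hj => le_iSup₂_of_le j (Or.inl hj) le_rfl
        have h2 : m (1, k) ≤ ⨆ j ∈ {j : Fin 3 × ℕ | j.2 < k ∨ j = (1, k)}, m j :=
          le_iSup₂_of_le (1, k) (Or.inr rfl) le_rfl
        exact ((h2 _ (ho k)).inter (h1 _ (CC_meas ho hc k))).compl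
      have := indep_aux hle hm (i := (0, k)) (S := {j : Fin 3 × ℕ | j.2 < k ∨ j = (1, k)})
        (by simp) (ha k) hin
      simp only [Measure.real, this, ENNReal.toReal_mul]
    have hset : (Eo k ∩ CC Eo Ec k)ᶜ ⊆ (Eo k)ᶜ ∪ (CC Eo Ec k)ᶜ := by
      rw [compl_inter]
    have e2 : P.real (Eo k ∩ CC Eo Ec k)ᶜ ≤ π * (1 + 2 * u) + Real.exp (-u) ^ k := by
      calc P.real (Eo k ∩ CC Eo Ec k)ᶜ ≤ P.real ((Eo k)ᶜ ∪ (CC Eo Ec k)ᶜ) :=
            measureReal_mono hset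
        _ ≤ P.real (Eo k)ᶜ + P.real (CC Eo Ec k)ᶜ := measureReal_union_le _ _
        _ ≤ π * u + (Real.exp (-(u * k)) + π * (1 + u)) := by
            refine add_le_add ?_ (hCb k hkM.le)
            rw [probReal_compl_eq_one_sub hoM, hEo k hkM]
            exact one_sub_exp_le _
        _ = π * (1 + 2 * u) + Real.exp (-u) ^ k := by
            rw [← Real.exp_nat_mul]
            have : (k : ℝ) * -u = -(u * k) := by ring
            rw [this]; ring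
    rw [e1]
    have hnn : 0 ≤ P.real (Eo k ∩ CC Eo Ec k)ᶜ := measureReal_nonneg
    calc P.real (Ea k) * P.real (Eo k ∩ CC Eo Ec k)ᶜ
        ≤ r * P.real (Eo k ∩ CC Eo Ec k)ᶜ := mul_le_mul_of_nonneg_right (hEa k hkM) hnn
      _ ≤ _ := mul_le_mul_of_nonneg_left e2 hr
  refine (measureReal_biUnion_finset_le _ _).trans ((Finset.sum_le_sum h1).trans ?_)
  rw [← Finset.mul_sum, Finset.sum_add_distrib, Finset.sum_const, Finset.card_range, nsmul_eq_mul]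
  refine mul_le_mul_of_nonneg_left ?_ hr
  have hx0 : 0 < Real.exp (-u) := Real.exp_pos _
  have hg : (∑ k ∈ Finset.range M, Real.exp (-u) ^ k) * (1 - Real.exp (-u)) =
      1 - Real.exp (-u) ^ M := by
    have := geom_sum_mul (Real.exp (-u)) M
    linarith
  have hS0 : 0 ≤ ∑ k ∈ Finset.range M, Real.exp (-u) ^ k :=
    Finset.sum_nonneg fun k _ => pow_nonneg hx0.le k
  have hxM : 0 ≤ Real.exp (-u) ^ M := pow_nonneg hx0.le M
  have hux : u ≤ (1 + u) * (1 - Real.exp (-u)) := by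
    have := exp_bd u; nlinarith
  have key : (∑ k ∈ Finset.range M, Real.exp (-u) ^ k) ≤ (1 + u) / u := by
    rw [le_div_iff₀ hu]
    calc (∑ k ∈ Finset.range M, Real.exp (-u) ^ k) * u
        ≤ (∑ k ∈ Finset.range M, Real.exp (-u) ^ k) * ((1 + u) * (1 - Real.exp (-u))) :=
          mul_le_mul_of_nonneg_left hux hS0
      _ = (1 + u) * (1 - Real.exp (-u) ^ M) := by rw [← hg]; ring
      _ ≤ 1 + u := by nlinarith
  linarith

end abstract

section concrete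

variable {V : Type}

/-- the label of type `τ` of the cell `c` -/
def lab : Sym2 V ⊕ V → Fin 3 → Label V
  | Sum.inl e, 0 => Label.att e
  | Sum.inl e, 1 => Label.opn e
  | Sum.inl e, 2 => Label.cls e
  | Sum.inr x, _ => Label.rcv x

/-- active pieces -/
def act (M : Sym2 V ⊕ V → ℕ) (c : Sym2 V ⊕ V) (τ : Fin 3) (k : ℕ) : Prop :=
  k < M c ∧ (∀ x, c = Sum.inr x → τ = 0)

/-- number of the piece -/
def num (M : Sym2 V ⊕ V → ℕ) (b : ((Sym2 V ⊕ V) × ℕ) × (Fin 3 × ℕ)) : ℕ :=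
  b.1.2 * M b.1.1 + b.2.2

/-- left end of the piece -/
noncomputable def lo (M : Sym2 V ⊕ V → ℕ) (δ : ℝ) (b : ((Sym2 V ⊕ V) × ℕ) × (Fin 3 × ℕ)) : ℝ :=
  (num M b : ℝ) * (δ / M b.1.1)

open Classical in
/-- right end of the piece -/
noncomputable def hi (M : Sym2 V ⊕ V → ℕ) (δ : ℝ) (b : ((Sym2 V ⊕ V) × ℕ) × (Fin 3 × ℕ)) : ℝ :=
  if act M b.1.1 b.2.1 b.2.2 then ((num M b : ℝ) + 1) * (δ / M b.1.1) else lo M δ b

/-- number of points in a piece -/
noncomputable def cnt {Ω : Type} (N : Label V → Ω → Set ℝ) (M : Sym2 V ⊕ V → ℕ) (δ : ℝ)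
    (b : ((Sym2 V ⊕ V) × ℕ) × (Fin 3 × ℕ)) (ω : Ω) : ℕ∞ :=
  (N (lab b.1.1 b.2.1) ω ∩ Ioc (lo M δ b) (hi M δ b)).encard

theorem lo_nonneg {M : Sym2 V ⊕ V → ℕ} {δ : ℝ} (hδ : 0 < δ)
    (b : ((Sym2 V ⊕ V) × ℕ) × (Fin 3 × ℕ)) : 0 ≤ lo M δ b := by
  unfold lo; positivity

theorem lab_inj {c c' : Sym2 V ⊕ V} {τ τ' : Fin 3} (h : lab c τ = lab c' τ')
    (h1 : ∀ x, c = Sum.inr x → τ = 0) (h2 : ∀ x, c' = Sum.inr x → τ' = 0) : c = c' ∧ τ = τ' := by
  rcases c with e | x <;> rcases c' with e' | x'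
  · fin_cases τ <;> fin_cases τ' <;> simp_all [lab]
  · fin_cases τ <;> simp_all [lab]
  · fin_cases τ' <;> simp_all [lab]
  · have := h1 x rfl
    have := h2 x' rfl
    subst_vars
    simpa [lab] using h

theorem pieces_disjoint {M : Sym2 V ⊕ V → ℕ} {δ : ℝ} (hδ : 0 < δ)
    (b b' : ((Sym2 V ⊕ V) × ℕ) × (Fin 3 × ℕ)) (hne : b ≠ b')
    (hl : lab b.1.1 b.2.1 = lab b'.1.1 b'.2.1) :
    Disjoint (Ioc (lo M δ b) (hi M δ b)) (Ioc (lo M δ b') (hi M δ b')) := by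
  by_cases h1 : act M b.1.1 b.2.1 b.2.2
  swap
  · rw [hi, if_neg h1, Ioc_self]; exact disjoint_bot_left
  by_cases h2 : act M b'.1.1 b'.2.1 b'.2.2
  swap
  · have : hi M δ b' = lo M δ b' := by rw [hi, if_neg h2]
    rw [this, Ioc_self]; exact disjoint_bot_right
  obtain ⟨⟨c, j⟩, τ, k⟩ := b
  obtain ⟨⟨c', j'⟩, τ', k'⟩ := b'
  simp only at h1 h2 hl
  obtain ⟨rfl, rfl⟩ := lab_inj hl h1.2 h2.2
  simp only [lo, hi, num, if_pos h1, if_pos h2]
  have hM : 0 < M c := lt_of_le_of_lt (Nat.zero_le _) h1.1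
  have hη : 0 < δ / M c := by positivity
  have hnum : j * M c + k ≠ j' * M c + k' := by
    intro h
    apply hne
    have e1 : j = j' := by
      have a1 : (j * M c + k) / M c = j := by
        rw [add_comm, Nat.add_mul_div_right _ _ hM, Nat.div_eq_of_lt h1.1, zero_add]
      have a2 : (j' * M c + k') / M c = j' := by
        rw [add_comm, Nat.add_mul_div_right _ _ hM, Nat.div_eq_of_lt h2.1, zero_add]
      rw [← a1, ← a2, h]
    subst e1
    have e2 : k = k' := by omega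
    subst e2; rfl
  rw [Set.disjoint_left]
  rintro t ⟨ht1, ht2⟩ ⟨ht3, ht4⟩
  rcases lt_or_gt_of_ne hnum with h | h
  · have h' : (((j * M c + k : ℕ) : ℝ) + 1) ≤ ((j' * M c + k' : ℕ) : ℝ) := by exact_mod_cast h
    have := mul_le_mul_of_nonneg_right h' hη.le
    linarith
  · have h' : (((j' * M c + k' : ℕ) : ℝ) + 1) ≤ ((j * M c + k : ℕ) : ℝ) := by exact_mod_cast h
    have := mul_le_mul_of_nonneg_right h' hη.le
    linarith

theorem exists_piece {j M : ℕ} (hM : 0 < M) {δ t : ℝ} (hδ : 0 < δ) (h1 : j * δ < t)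
    (h2 : t ≤ (j + 1) * δ) : ∃ k < M, ((j * M + k : ℕ) : ℝ) * (δ / M) < t ∧
      t ≤ (((j * M + k : ℕ) : ℝ) + 1) * (δ / M) := by
  have hM' : (0 : ℝ) < M := by exact_mod_cast hM
  have hη : 0 < δ / M := by positivity
  have ht : 0 < t := lt_of_le_of_lt (by positivity) h1
  have hc : 0 < ⌈t / (δ / M)⌉₊ := Nat.ceil_pos.mpr (by positivity)
  obtain ⟨n, hn⟩ : ∃ n, ⌈t / (δ / M)⌉₊ = n + 1 := ⟨_, (Nat.succ_pred_eq_of_pos hc).symm⟩
  have a1 : (n : ℝ) * (δ / M) < t := by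
    have : (n : ℝ) < t / (δ / M) := Nat.lt_ceil.mp (by omega)
    rwa [lt_div_iff₀ hη] at this
  have a2 : t ≤ ((n : ℝ) + 1) * (δ / M) := by
    have := Nat.le_ceil (t / (δ / M))
    rw [hn, div_le_iff₀ hη] at this
    push_cast at this
    exact this
  have b1 : j * M < n + 1 := by
    have : ((j * M : ℕ) : ℝ) * (δ / M) < ((n : ℝ) + 1) * (δ / M) := by
      refine lt_of_lt_of_le ?_ a2
      have e : ((j * M : ℕ) : ℝ) * (δ / M) = j * δ := by push_cast; field_simp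
      rw [e]; exact h1
    have := lt_of_mul_lt_mul_right this hη.le
    exact_mod_cast this
  have b2 : n < j * M + M := by
    have : (n : ℝ) * (δ / M) < ((j * M + M : ℕ) : ℝ) * (δ / M) := by
      refine lt_of_lt_of_le a1 (h2.trans (le_of_eq ?_))
      push_cast; field_simp
    have := lt_of_mul_lt_mul_right this hη.le
    exact_mod_cast this
  refine ⟨n - j * M, by omega, ?_⟩
  have e : j * M + (n - j * M) = n := by omega
  rw [e]
  exact ⟨a1, a2⟩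

variable {Ω : Type}

/-- the event that some point lies in the piece -/
def Ea (N : Label V → Ω → Set ℝ) (M : Sym2 V ⊕ V → ℕ) (δ : ℝ) (b : (Sym2 V ⊕ V) × ℕ) (τ : Fin 3)
    (k : ℕ) : Set Ω := {ω | cnt N M δ (b, (τ, k)) ω = 0}

/-- the event for `Z` -/
def Ev (N : Label V → Ω → Set ℝ) (M : Sym2 V ⊕ V → ℕ) (δ : ℝ) : (Sym2 V ⊕ V) × ℕ → Set Ω
  | (Sum.inl e, j) => ⋃ k ∈ Finset.range (M (Sum.inl e)), (Ea N M δ (Sum.inl e, j) 0 k)ᶜ ∩
      (Ea N M δ (Sum.inl e, j) 1 k ∩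
        CC (Ea N M δ (Sum.inl e, j) 1) (Ea N M δ (Sum.inl e, j) 2) k)ᶜ
  | (Sum.inr x, j) => Ea N M δ (Sum.inr x, j) 0 0

theorem mem_Ea_inl {N : Label V → Ω → Set ℝ} {M : Sym2 V ⊕ V → ℕ} {δ : ℝ} {e : Sym2 V} {j k : ℕ}
    (τ : Fin 3) (hk : k < M (Sum.inl e)) {ω : Ω} : ω ∈ Ea N M δ (Sum.inl e, j) τ k ↔
    ∀ t ∈ N (lab (Sum.inl e) τ) ω, ((j * M (Sum.inl e) + k : ℕ) : ℝ) * (δ / M (Sum.inl e)) < t →
      t ≤ (((j * M (Sum.inl e) + k : ℕ) : ℝ) + 1) * (δ / M (Sum.inl e)) → False := by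
  have ha : act M (Sum.inl e) τ k := ⟨hk, fun x hx => by cases hx⟩
  simp only [Ea, cnt, lo, hi, num, if_pos ha, Set.mem_ofPred_eq, Set.encard_eq_zero,
    Set.eq_empty_iff_forall_notMem, Set.mem_inter_iff, Set.mem_Ioc, not_and]

theorem CC_det {N : Label V → Ω → Set ℝ} {M : Sym2 V ⊕ V → ℕ} {δ : ℝ} (hδ : 0 < δ) {e : Sym2 V}
    {j : ℕ} {ω : Ω} (k : ℕ) (hk : k ≤ M (Sum.inl e))
    (h : ω ∈ CC (Ea N M δ (Sum.inl e, j) 1) (Ea N M δ (Sum.inl e, j) 2) k) :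
    ∃ u ∈ N (Label.cls e) ω, 0 < u ∧
      u ≤ ((j * M (Sum.inl e) + k : ℕ) : ℝ) * (δ / M (Sum.inl e)) ∧
      ∀ s ∈ N (Label.opn e) ω, u ≤ s →
        s ≤ ((j * M (Sum.inl e) + k : ℕ) : ℝ) * (δ / M (Sum.inl e)) → False := by
  induction k with
  | zero => exact absurd h (Set.notMem_empty ω)
  | succ k ih =>
    obtain ⟨h1, h2⟩ := h
    rw [mem_Ea_inl 1 (by omega)] at h1
    have hcast : ((j * M (Sum.inl e) + (k + 1) : ℕ) : ℝ) =
        ((j * M (Sum.inl e) + k : ℕ) : ℝ) + 1 := by push_cast; ring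
    have hη : 0 ≤ δ / M (Sum.inl e) := by positivity
    rw [hcast]
    rcases h2 with h2 | h2
    · rw [Set.mem_compl_iff, mem_Ea_inl 2 (by omega)] at h2
      push Not at h2
      obtain ⟨u, hu1, hu2, hu3, -⟩ := h2
      refine ⟨u, hu1, lt_of_le_of_lt (by positivity) hu2, hu3, ?_⟩
      intro s hs hus hst
      exact h1 s hs (lt_of_lt_of_le hu2 hus) hst
    · obtain ⟨u, hu1, hu2, hu3, hu4⟩ := ih (by omega) h2
      refine ⟨u, hu1, hu2, hu3.trans (by nlinarith), ?_⟩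
      intro s hs hus hst
      by_cases hc : s ≤ ((j * M (Sum.inl e) + k : ℕ) : ℝ) * (δ / M (Sum.inl e))
      · exact hu4 s hs hus hc
      · exact h1 s hs (not_le.mp hc) hst

theorem Ev_det {N : Label V → Ω → Set ℝ} {M : Sym2 V ⊕ V → ℕ} {δ : ℝ} (hδ : 0 < δ) {e : Sym2 V}
    (hM : 0 < M (Sum.inl e)) {j : ℕ} {ω : Ω} {t : ℝ} {B0 : Set (Sym2 V)} (h1 : j * δ < t)
    (h2 : t ≤ (j + 1) * δ) (ht : t ∈ N (Label.att e) ω)
    (hO : OpenAt B0 (fun e => N (Label.opn e) ω) (fun e => N (Label.cls e) ω) e t) :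
    ω ∈ Ev N M δ (Sum.inl e, j) := by
  obtain ⟨k, hk, hk1, hk2⟩ := exists_piece hM hδ h1 h2
  simp only [Ev, Set.mem_iUnion]
  refine ⟨k, Finset.mem_range.mpr hk, ?_, ?_⟩
  · rw [Set.mem_compl_iff, mem_Ea_inl 0 hk]
    intro h
    exact h t ht hk1 hk2
  · rw [Set.mem_compl_iff]
    rintro ⟨h3, h4⟩
    rw [mem_Ea_inl 1 hk] at h3
    obtain ⟨u, hu1, hu2, hu3, hu4⟩ := CC_det hδ k hk.le h4
    rcases hO with ⟨s, hs, hs0, hst, hsc⟩ | ⟨-, hc⟩
    · have hus : u ≤ s := by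
        by_contra hlt
        exact hsc u hu1 ⟨not_le.mp hlt, hu3.trans hk1.le⟩
      by_cases hc : s ≤ ((j * M (Sum.inl e) + k : ℕ) : ℝ) * (δ / M (Sum.inl e))
      · exact hu4 s hs hus hc
      · exact h3 s hs (not_le.mp hc) (hst.trans hk2)
    · exact hc u hu1 ⟨hu2, hu3.trans hk1.le⟩

variable [mΩ : MeasurableSpace Ω] {P : Measure Ω}

/-- the `σ`-algebras of the numbers of points -/
@[reducible] noncomputable def ms (N : Label V → Ω → Set ℝ) (M : Sym2 V ⊕ V → ℕ) (δ : ℝ)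
    (b : ((Sym2 V ⊕ V) × ℕ) × (Fin 3 × ℕ)) : MeasurableSpace Ω :=
  MeasurableSpace.comap (cnt N M δ b) inferInstance

theorem cnt_meas {rate : Label V → ℝ} {N : Label V → Ω → Set ℝ} (hN : IsPoissonFamily P rate N)
    {M : Sym2 V ⊕ V → ℕ} {δ : ℝ} (hδ : 0 < δ) (b : ((Sym2 V ⊕ V) × ℕ) × (Fin 3 × ℕ)) :
    Measurable (cnt N M δ b) := hN.meas _ _ _ (lo_nonneg hδ b)

theorem ms_le {rate : Label V → ℝ} {N : Label V → Ω → Set ℝ} (hN : IsPoissonFamily P rate N)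
    {M : Sym2 V ⊕ V → ℕ} {δ : ℝ} (hδ : 0 < δ) (b : ((Sym2 V ⊕ V) × ℕ) × (Fin 3 × ℕ)) :
    ms N M δ b ≤ mΩ := (cnt_meas hN hδ b).comap_le

theorem ms_indep {rate : Label V → ℝ} {N : Label V → Ω → Set ℝ} (hN : IsPoissonFamily P rate N)
    {M : Sym2 V ⊕ V → ℕ} {δ : ℝ} (hδ : 0 < δ) : iIndep (ms N M δ) P := by
  have h := hN.indep (((Sym2 V ⊕ V) × ℕ) × (Fin 3 × ℕ)) (fun b => lab b.1.1 b.2.1) (lo M δ)
    (hi M δ) (lo_nonneg hδ) (fun b b' hne hl => pieces_disjoint hδ b b' hne hl)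
  exact h.iIndep

omit mΩ in
theorem Ea_meas (N : Label V → Ω → Set ℝ) (M : Sym2 V ⊕ V → ℕ) (δ : ℝ) (b : (Sym2 V ⊕ V) × ℕ)
    (τ : Fin 3) (k : ℕ) : MeasurableSet[ms N M δ (b, (τ, k))] (Ea N M δ b τ k) :=
  ⟨{0}, MeasurableSet.singleton _, rfl⟩

theorem Ev_meas (N : Label V → Ω → Set ℝ) (M : Sym2 V ⊕ V → ℕ) (δ : ℝ) (b : (Sym2 V ⊕ V) × ℕ) :
    MeasurableSet[⨆ s, ms N M δ (b, s)] (Ev N M δ b) := by
  have hle : ∀ s, ms N M δ (b, s) ≤ ⨆ s, ms N M δ (b, s) :=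
    fun s => le_iSup (fun s => ms N M δ (b, s)) s
  obtain ⟨e | x, j⟩ := b
  · refine Finset.measurableSet_biUnion _ fun k _ => ?_
    refine ((hle _ _ (Ea_meas N M δ _ 0 k)).compl).inter (((hle _ _ (Ea_meas N M δ _ 1 k)).inter
      ?_).compl)
    have h1 := CC_meas (m := fun s => ms N M δ ((Sum.inl e, j), s)) (Ea_meas N M δ _ 1)
      (Ea_meas N M δ _ 2) k
    have h2 : (⨆ i ∈ {i : Fin 3 × ℕ | i.2 < k}, ms N M δ ((Sum.inl e, j), i)) ≤
        ⨆ s, ms N M δ ((Sum.inl e, j), s) := iSup₂_le fun i _ => hle i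
    exact h2 _ h1
  · exact hle _ _ (Ea_meas N M δ _ 0 0)

open Classical in
/-- the dominating family -/
noncomputable def ZZ (N : Label V → Ω → Set ℝ) (M : Sym2 V ⊕ V → ℕ) (δ : ℝ)
    (b : (Sym2 V ⊕ V) × ℕ) (ω : Ω) : Bool := decide (ω ∈ Ev N M δ b)

omit mΩ in
theorem ZZ_true {N : Label V → Ω → Set ℝ} {M : Sym2 V ⊕ V → ℕ} {δ : ℝ}
    {b : (Sym2 V ⊕ V) × ℕ} {ω : Ω} : ZZ N M δ b ω = true ↔ ω ∈ Ev N M δ b := by
  simp [ZZ]

theorem ZZ_set {N : Label V → Ω → Set ℝ} {M : Sym2 V ⊕ V → ℕ} {δ : ℝ}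
    {b : (Sym2 V ⊕ V) × ℕ} : {ω | ZZ N M δ b ω = true} = Ev N M δ b := by
  ext ω; exact ZZ_true

theorem ZZ_meas (N : Label V → Ω → Set ℝ) (M : Sym2 V ⊕ V → ℕ) (δ : ℝ)
    (b : (Sym2 V ⊕ V) × ℕ) : Measurable[⨆ s, ms N M δ (b, s)] (ZZ N M δ b) := by
  refine @measurable_to_bool _ (_) _ ?_
  have : ZZ N M δ b ⁻¹' {true} = Ev N M δ b := ZZ_set
  rw [this]
  exact Ev_meas N M δ b

theorem ZZ_indep [IsProbabilityMeasure P] {rate : Label V → ℝ} {N : Label V → Ω → Set ℝ}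
    (hN : IsPoissonFamily P rate N)
    {M : Sym2 V ⊕ V → ℕ} {δ : ℝ} (hδ : 0 < δ) : iIndepFun (ZZ N M δ) P := by
  have h := iIndep_blocks (ms_le hN hδ) (ms_indep (M := M) hN hδ)
  rw [iIndepFun_iff_iIndep, iIndep_iff]
  rw [iIndep_iff] at h
  intro S f hf
  refine h S fun i hi => ?_
  exact (ZZ_meas N M δ i).comap_le _ (hf i hi)

theorem pairVal_pos {G : SimpleGraph V} {v : ℕ → ℝ} (hv : ∀ n, 0 < v n) {e : Sym2 V}
    (he : ¬ e.IsDiag) : 0 < pairVal G v e := by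
  induction e using Sym2.ind with
  | _ x y =>
    rw [Sym2.mk_isDiag_iff] at he
    simp [pairVal, he, hv]

theorem pairVal_nonneg {G : SimpleGraph V} {v : ℕ → ℝ} (hv : ∀ n, 0 ≤ v n) (e : Sym2 V) :
    0 ≤ pairVal G v e := by
  induction e using Sym2.ind with
  | _ x y =>
    simp only [pairVal, Sym2.lift_mk]
    split_ifs
    · exact le_rfl
    · exact hv _

theorem real_zero {rate : Label V → ℝ} {N : Label V → Ω → Set ℝ} (hN : IsPoissonFamily P rate N)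
    {M : Sym2 V ⊕ V → ℕ} {δ : ℝ} (hδ : 0 < δ) (b : (Sym2 V ⊕ V) × ℕ) (τ : Fin 3) (k : ℕ)
    (ha : act M b.1 τ k) : P.real (Ea N M δ b τ k) =
      Real.exp (-(rate (lab b.1 τ) * (δ / M b.1))) := by
  have hη : 0 ≤ δ / M b.1 := by positivity
  have h := hN.law (lab b.1 τ) (lo M δ (b, (τ, k))) (hi M δ (b, (τ, k))) (lo_nonneg hδ _)
    (by simp only [hi, if_pos ha, lo]; nlinarith) 0
  have e : hi M δ (b, (τ, k)) - lo M δ (b, (τ, k)) = δ / M b.1 := by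
    simp only [hi, if_pos ha, lo]; ring
  rw [e] at h
  have e2 : {ω | (N (lab b.1 τ) ω ∩ Ioc (lo M δ (b, (τ, k))) (hi M δ (b, (τ, k)))).encard =
      ((0 : ℕ) : ℕ∞)} = Ea N M δ b τ k := by
    simp only [Ea, cnt, Nat.cast_zero]
  rw [e2] at h
  rw [Measure.real, h, pow_zero, Nat.factorial_zero, Nat.cast_one, mul_one, div_one,
    ENNReal.toReal_ofReal (Real.exp_pos _).le]

end concrete

/-- **[DYN]** -/
theorem s_dyn : S_DYN := by
  intro V _ G p v lam lam' gam q δ κ Ω _ P _ N B0 hp hv hlam' hle hgam hq hq1 hδ hκ hκ1 hN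
  let M : Sym2 V ⊕ V → ℕ := fun c => match c with
    | Sum.inl e => ⌈gam * pairVal G v e * δ / κ⌉₊ + 1
    | Sum.inr _ => 1
  have hM : ∀ c, 0 < M c := by
    rintro (e | x)
    · exact Nat.succ_pos _
    · exact Nat.one_pos
  refine ⟨ZZ N M δ, fun b => ?_, ZZ_indep hN hδ, ?_, ?_, ?_, ?_⟩
  · have h1 : (⨆ s, ms N M δ (b, s)) ≤ (inferInstance : MeasurableSpace Ω) :=
      iSup_le fun s => ms_le hN hδ _
    exact (ZZ_meas N M δ b).mono h1 le_rfl
  · intro e j he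
    rw [ZZ_set]
    have hs : 0 < gam * pairVal G v e := mul_pos hgam (pairVal_pos hv he)
    have hMe : (0 : ℝ) < M (Sum.inl e) := by exact_mod_cast hM (Sum.inl e)
    set s := gam * pairVal G v e with hsdef
    set η := δ / (M (Sum.inl e) : ℝ) with hηdef
    have hη : 0 < η := by positivity
    have hπ0 : 0 ≤ q * pairVal G p e := mul_nonneg hq.le (pairVal_nonneg (fun n => (hp n).1) e)
    set π := q * pairVal G p e with hπdef
    have hu : 0 < s * η := mul_pos hs hη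
    have huκ : s * η ≤ κ := by
      have h1 : s * δ / κ ≤ M (Sum.inl e) := by
        have := Nat.le_ceil (s * δ / κ)
        have h2 : ((M (Sum.inl e) : ℕ) : ℝ) = (⌈s * δ / κ⌉₊ : ℝ) + 1 := by
          simp only [M]; push_cast; rfl
        rw [h2]; linarith
      rw [div_le_iff₀ hκ] at h1
      rw [hηdef, ← mul_div_assoc, div_le_iff₀ hMe]
      linarith
    have hact : ∀ (τ : Fin 3) (k : ℕ), k < M (Sum.inl e) → act M (Sum.inl e) τ k :=
      fun τ k hk => ⟨hk, fun x hx => by cases hx⟩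
    have hb := dyn_bound (P := P) (m := fun i => ms N M δ ((Sum.inl e, j), i))
      (fun i => ms_le hN hδ _)
      ((ms_indep hN hδ).precomp (g := fun i => ((Sum.inl e, j), i))
        (fun a b h => (Prod.mk.inj h).2))
      (Ea := fun k => (Ea N M δ (Sum.inl e, j) 0 k)ᶜ)
      (Eo := Ea N M δ (Sum.inl e, j) 1) (Ec := Ea N M δ (Sum.inl e, j) 2)
      (fun k => (Ea_meas N M δ _ 0 k).compl) (Ea_meas N M δ _ 1) (Ea_meas N M δ _ 2)
      (M := M (Sum.inl e)) (r := lam' * η) (u := s * η) (π := π) hu (by positivity) hπ0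
      (fun k hk => by
        rw [probReal_compl_eq_one_sub (ms_le hN hδ _ _ (Ea_meas N M δ _ 0 k)),
          real_zero hN hδ _ _ _ (hact 0 k hk)]
        have : dynRate G p v lam' gam q (lab (Sum.inl e) 0) = lam' := by
          simp [lab, dynRate, he]
        rw [this]
        exact one_sub_exp_le _)
      (fun k hk => by
        rw [real_zero hN hδ _ _ _ (hact 1 k hk)]
        congr 2
        simp only [lab, dynRate]
        ring)
      (fun k hk => by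
        rw [real_zero hN hδ _ _ _ (hact 2 k hk)]
        congr 2
        simp only [lab, dynRate]
        ring)
    have hEv : Ev N M δ (Sum.inl e, j) = ⋃ k ∈ Finset.range (M (Sum.inl e)),
        (fun k => (Ea N M δ (Sum.inl e, j) 0 k)ᶜ) k ∩ (Ea N M δ (Sum.inl e, j) 1 k ∩
        CC (Ea N M δ (Sum.inl e, j) 1) (Ea N M δ (Sum.inl e, j) 2) k)ᶜ := rfl
    rw [← hEv] at hb
    have hfin : P (Ev N M δ (Sum.inl e, j)) = ENNReal.ofReal (P.real (Ev N M δ (Sum.inl e, j))) := by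
      rw [Measure.real, ENNReal.ofReal_toReal (measure_ne_top _ _)]
    rw [hfin]
    refine ENNReal.ofReal_le_ofReal (hb.trans ?_)
    have e1 : lam' * η * (M (Sum.inl e) * (π * (1 + 2 * (s * η))) + (1 + s * η) / (s * η)) =
        lam' * (δ * (π * (1 + 2 * (s * η))) + (1 + s * η) / s) := by
      have : δ = η * M (Sum.inl e) := by rw [hηdef]; field_simp
      rw [this]
      field_simp
    rw [e1]
    have h1 : δ * (π * (1 + 2 * (s * η))) ≤ δ * (π * (1 + 2 * κ)) := by gcongr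
    have h2 : (1 + s * η) / s ≤ 2 / s := by gcongr; linarith
    calc lam' * (δ * (π * (1 + 2 * (s * η))) + (1 + s * η) / s)
        ≤ lam' * (δ * (π * (1 + 2 * κ)) + 2 / s) :=
          mul_le_mul_of_nonneg_left (add_le_add h1 h2) hlam'
      _ ≤ lam * (δ * (π * (1 + 2 * κ)) + 2 / s) :=
          mul_le_mul_of_nonneg_right hle (by positivity)
      _ = lam * δ * π * (1 + 2 * κ) + 2 * lam / s := by ring
  · intro x j
    rw [ZZ_set]
    have ha : act M (Sum.inr x) 0 0 := ⟨Nat.one_pos, fun _ _ => rfl⟩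
    have h := real_zero hN hδ (Sum.inr x, j) 0 0 ha
    have hfin : P (Ev N M δ (Sum.inr x, j)) = ENNReal.ofReal (P.real (Ev N M δ (Sum.inr x, j))) := by
      rw [Measure.real, ENNReal.ofReal_toReal (measure_ne_top _ _)]
    rw [hfin]
    congr 1
    have : Ev N M δ (Sum.inr x, j) = Ea N M δ (Sum.inr x, j) 0 0 := rfl
    rw [this, h]
    congr 1
    simp [lab, dynRate, M]
  · intro ω e j t he h1 h2 ht hO
    rw [ZZ_true]
    exact Ev_det hδ (hM _) h1 h2 ht hO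
  · intro ω x j h
    rw [ZZ_true]
    change cnt N M δ ((Sum.inr x, j), (0, 0)) ω = 0
    have ha : act M (Sum.inr x) 0 0 := ⟨Nat.one_pos, fun _ _ => rfl⟩
    have hM1 : M (Sum.inr x) = 1 := rfl
    simp only [cnt, lo, hi, num, if_pos ha, hM1, Set.encard_eq_zero,
      Set.eq_empty_iff_forall_notMem, Set.mem_inter_iff, Set.mem_Ioc, not_and]
    intro t ht h1 h2
    refine h t ?_ ?_ ht
    · simpa using h1
    · simpa using h2

end Pool.Agent.H106.LR
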